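import Pool.Agent.helper53.EXT.SpecG

/-!
# EXT (MP_561ff4_al), row G5C: the conjugate of the element
-/

set_option autoImplicit false

open Finset

namespace Pool.Agent.EXT

open Pool.Agent.EXC

theorem G5C_xe_smul {K : Type} [Field K] (a : Lm C6 K) (c t : K) (v : Lm C6 K) : xe C6 (c • a) t v = xe C6 a (c * t) v := by
  unfold xe
  rw [br_smul_left, fm_smul_left]
  module

theorem G5C_xe_zero {K : Type} [Field K] (a v : Lm C6 K) : xe C6 a 0 v = v := by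
  unfold xe
  simp

theorem G5C (hGEF : GEF_stmt) (hPAR : PAR_stmt) (hGFX : GFX_stmt) (hSGR : SGR_stmt) (hG5R : G5R_stmt) (hG5A : G5A_stmt) : G5C_stmt := by
  intro K _ τ hτ x hx hx1
  obtain ⟨a, a', m, ha, ha', him, htp, hm⟩ := hGEF K τ hτ x hx hx1
  obtain ⟨c, d, hcd, hcdm⟩ : ∃ c d : Fin 4, ((c = 1 ∧ d = 0) ∨ (c = 1 ∧ d = 2) ∨ (c = 2 ∧ d = 3)) ∧
      ip C6 (gm 0 - gm 1) (gm c - gm d) = m := by
    obtain ⟨-, -, -, -, -, h1, h2, h3⟩ := hG5R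
    rcases hm with rfl | rfl | rfl
    · exact ⟨1, 0, Or.inl ⟨rfl, rfl⟩, h1⟩
    · exact ⟨1, 2, Or.inr (Or.inl ⟨rfl, rfl⟩), h2⟩
    · exact ⟨2, 3, Or.inr (Or.inr ⟨rfl, rfl⟩), h3⟩
  have hcdne : c ≠ d := by
    rcases hcd with ⟨rfl, rfl⟩ | ⟨rfl, rfl⟩ | ⟨rfl, rfl⟩ <;> decide
  have hβ := hG5R.1 0 1 (by decide)
  have hδ := hG5R.1 c d hcdne
  obtain ⟨g, hg, κ, hκ, hκ0, hga, hgb⟩ := hPAR K τ hτ a a' m htp (gm 0 - gm 1) (gm c - gm d) hβ hδ hcdm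
  obtain ⟨hGS, hF⟩ := hGFX K τ hτ
  obtain ⟨hF1, hF2, hF3, hF4, hF5⟩ := hF a ha
  obtain ⟨hF1', hF2', hF3', hF4', hF5'⟩ := hF a' ha'
  obtain ⟨f, hf, hfa⟩ := hF1 1 (map_one τ)
  obtain ⟨s, hs, hsx⟩ := (him ⟨f, hf⟩).1 ⟨1, map_one τ, hfa⟩
  have hs0 : s ≠ 0 := by
    intro h0
    rw [h0] at hsx
    have h1 : x ⟨f, hf⟩ = 1 := Subtype.ext (Equiv.ext fun v => Subtype.ext (by
      rw [hsx v, G5C_xe_zero]
      rfl))
    have h2 : (⟨f, hf⟩ : GF τ) = 1 := (MulEquiv.map_eq_one_iff x).1 h1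
    have h3 : f = 1 := congrArg Subtype.val h2
    have h4 : IsF τ a 0 f := by
      intro v
      rw [h3, G5C_xe_zero]
      rfl
    exact one_ne_zero (hF4 1 0 f hfa h4)
  obtain ⟨f0, hf0, hf0v⟩ := hGS g hg
  -- the inverse of the image
  obtain ⟨u, hu, hua⟩ := hF1' (-s) (by rw [map_neg, hs])
  have hxu : (((x ⟨f, hf⟩)⁻¹ : GF τ) : Equiv.Perm (LT τ)) = u := by
    have h1 := hF3' s (-s) _ u hsx hua
    rw [add_neg_cancel] at h1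
    have h2 : ((x ⟨f, hf⟩ : GF τ) : Equiv.Perm (LT τ)) * u = 1 := Equiv.ext fun v => Subtype.ext (by
      rw [h1 v, G5C_xe_zero]
      rfl)
    rw [Subgroup.coe_inv]
    exact inv_eq_of_mul_eq_one_right h2
  -- root elements
  obtain ⟨y1, hy1, hy1x⟩ := (hSGR K τ hτ).2.1 (gm 0 - gm 1) 1 hβ (map_one τ)
  obtain ⟨y2, hy2, hy2x⟩ := (hSGR K τ hτ).2.1 (gm c - gm d) (κ * -s) hδ (by rw [map_mul, map_neg, hs, hκ])
  obtain ⟨e1, he1, hMo1⟩ := (hG5A K).1 0 1 (by decide)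
  obtain ⟨e2, he2, hMo2⟩ := (hG5A K).1 c d hcdne
  have hi : ∀ e : ℤ, (e = 1 ∨ e = -1) → τ (e : K) = e ∧ (e : K) ≠ 0 := by
    intro e he
    refine ⟨map_intCast τ e, ?_⟩
    rcases he with rfl | rfl
    · simp
    · simp
  have hconj := hF5 f0 hf0 g hg hf0v 1 f hfa
  have hconj' := hF5' f0 hf0 g hg hf0v (-s) u hua
  rw [hga] at hconj
  rw [hgb] at hconj'
  refine ⟨c, d, e2 * (κ * -s), e1 * 1, ⟨f, hf⟩⁻¹, ⟨f0, hf0⟩, hcd, ?_, ?_, ?_, ?_, y2 * y1, mul_mem hy2 hy1, ?_, ?_⟩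
  · rw [map_mul, map_mul, map_neg, hs, hκ, (hi e2 he2).1]
  · rw [map_mul, map_one, (hi e1 he1).1]
  · exact mul_ne_zero (hi e2 he2).2 (mul_ne_zero hκ0 (neg_ne_zero.2 hs0))
  · exact mul_ne_zero (hi e1 he1).2 one_ne_zero
  · exact (hG5A K).2.1 y2 y1 _ _ (hMo2 _ y2 hy2x) (hMo1 _ y1 hy1x)
  · intro v
    have h1 : ((⟨f0, hf0⟩ * (x (⟨f, hf⟩⁻¹) * (⟨f, hf⟩⁻¹)⁻¹) * ⟨f0, hf0⟩⁻¹ : GF τ) : Equiv.Perm (LT τ)) =
        (f0 * u * f0⁻¹) * (f0 * f * f0⁻¹) := by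
      rw [map_inv, inv_inv, Subgroup.coe_mul, Subgroup.coe_mul, Subgroup.coe_mul, hxu, Subgroup.coe_inv]
      group
    rw [h1, Equiv.Perm.mul_apply, hconj', G5C_xe_smul, hconj, LinearEquiv.mul_apply, hy2x, hy1x]

end Pool.Agent.EXT
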