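import Pool.Agent.helper17.EXT.SpecJ

/-!
# EXT (MP_561ff4_al), block J, row JUM: the unipotent group centralises the highest short root subgroup
-/

set_option autoImplicit false

open Finset

namespace Pool.Agent.EXT

open Pool.Agent.EXC

/-- the long roots above `eta` -/
def JUM_l : Fin 3 → Fin 6 → ℤ := ![![1, 1, 2, 2, 2, 1], ![1, 1, 2, 3, 2, 1], ![1, 2, 2, 3, 2, 1]]

theorem JUM_fin1 : ∀ i j : Fin 3, ip C6 (JUM_l i) (JUM_l j) = if i = j then 2 else 1 := by decide +kernel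

theorem JUM_fin2 : (∀ i : Fin 3, ip C6 eta (JUM_l i) = 1 ∧ ip C6 (pv eta) (JUM_l i) = 1 ∧ ip C6 (JUM_l i) (pv eta) = 1 ∧
    ip C6 (JUM_l i) eta = 1 ∧ pv (JUM_l i) = JUM_l i) ∧ ip C6 eta eta = 2 ∧ ip C6 (pv eta) (pv eta) = 2 := by decide +kernel

theorem JUM_fin3 : ∀ δ ∈ RL, (∀ i, 0 ≤ δ i) → (-1 ≤ ip C6 δ eta ∧ (ip C6 δ eta = -1 → ∃ j, δ + eta = JUM_l j)) ∧
    ∀ i, -1 ≤ ip C6 δ (JUM_l i) ∧ (ip C6 δ (JUM_l i) = -1 → ∃ j, δ + JUM_l i = JUM_l j) := by
  unfold RL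
  decide +kernel

section
variable {K : Type} [Field K]

/-- the root elements of `a` and `b` commute and are additive -/
structure JUM_Q (a b : Lm C6 K) : Prop where
  br0 : br C6 a b = 0
  fm0 : fm C6 a b = 0
  bb : ∀ v, br C6 a (br C6 b v) = fm C6 a v • b + fm C6 b v • a
  fb : ∀ v, fm C6 a (br C6 b v) = 0

theorem JUM_Q.add_left {a a' b : Lm C6 K} (h : JUM_Q a b) (h' : JUM_Q a' b) : JUM_Q (a + a') b where
  br0 := by rw [br_add_left, h.br0, h'.br0, add_zero]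
  fm0 := by rw [fm_add_left, h.fm0, h'.fm0, add_zero]
  bb v := by
    rw [br_add_left, h.bb, h'.bb, fm_add_left]
    module
  fb v := by rw [fm_add_left, h.fb, h'.fb, add_zero]

theorem JUM_Q.add_right {a b b' : Lm C6 K} (h : JUM_Q a b) (h' : JUM_Q a b') : JUM_Q a (b + b') where
  br0 := by rw [br_add_right, h.br0, h'.br0, add_zero]
  fm0 := by rw [fm_add_right, h.fm0, h'.fm0, add_zero]
  bb v := by
    rw [br_add_left, br_add_right, h.bb, h'.bb, fm_add_left]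
    module
  fb v := by rw [br_add_left, fm_add_right, h.fb, h'.fb, add_zero]

theorem JUM_Q.smul_left {a b : Lm C6 K} (h : JUM_Q a b) (c : K) : JUM_Q (c • a) b where
  br0 := by rw [br_smul_left, h.br0, smul_zero]
  fm0 := by rw [fm_smul_left, h.fm0, mul_zero]
  bb v := by
    rw [br_smul_left, h.bb, fm_smul_left]
    module
  fb v := by rw [fm_smul_left, h.fb, mul_zero]

theorem JUM_Q.smul_right {a b : Lm C6 K} (h : JUM_Q a b) (c : K) : JUM_Q a (c • b) where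
  br0 := by rw [br_smul_right, h.br0, smul_zero]
  fm0 := by rw [fm_smul_right, h.fm0, mul_zero]
  bb v := by
    rw [br_smul_left, br_smul_right, h.bb, fm_smul_left]
    module
  fb v := by rw [br_smul_left, fm_smul_right, h.fb, mul_zero]

theorem JUM_Q.xe {a b : Lm C6 K} (h : JUM_Q a b) (t : K) (v : Lm C6 K) : xe C6 (a + b) t v = xe C6 a t (xe C6 b t v) := by
  unfold Pool.Agent.EXC.xe
  rw [br_add_left, fm_add_left, br_add_right, br_add_right, br_smul_right, br_smul_right, fm_add_right, fm_add_right,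
    fm_smul_right, fm_smul_right, h.br0, h.fm0, h.bb, h.fb]
  module

theorem JUM_Q_root {α β : Fin 6 → ℤ} (hα : ip C6 α α = 2) (hβ : ip C6 β β = 2) (h : α = β ∨ ip C6 α β = 1) :
    JUM_Q (E C6 α : Lm C6 K) (E C6 β) := by
  obtain ⟨i1, i2, i3, i4, i5⟩ := f_INV 6 C6 K
  have h0 : br C6 (E C6 α) (E C6 β : Lm C6 K) = 0 ∧ fm C6 (E C6 α) (E C6 β : Lm C6 K) = 0 := by
    rcases h with rfl | h
    · exact i5 α hα
    · have hne : β ≠ -α := by
        rintro rfl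
        rw [ip_neg_right, hα] at h
        omega
      have h2 : ip C6 (α + β) (α + β) ≠ 2 := by
        rw [ip_add_left, ip_add_right, ip_add_right, hα, hβ, h, ip_comm C6 β α, h]
        norm_num
      refine ⟨?_, ?_⟩
      · rw [br_E_E C6 hα hβ, E_eq_zero C6 h2, if_neg hne, smul_zero, sub_zero]
      · rw [fm_E_E C6 hα hβ, if_neg hne]
  have h0' : br C6 (E C6 β) (E C6 α : Lm C6 K) = 0 := by
    rw [i4, h0.1, neg_zero]
  refine ⟨h0.1, h0.2, fun v => ?_, fun v => ?_⟩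
  · rcases h with rfl | h
    · rw [i2 α hα]
      module
    · exact ((f_COL 6 C6 K α β hα hβ).1 h).2 v
  · rw [i3, i1 β hβ, h0', fm_zero_right, neg_zero]

/-- the combination of the long root vectors -/
noncomputable def JUM_w (a : Fin 3 → K) : Lm C6 K := ∑ i, a i • E C6 (JUM_l i)

theorem JUM_w_left {b : Lm C6 K} (h : ∀ i, JUM_Q (E C6 (JUM_l i)) b) (a : Fin 3 → K) : JUM_Q (JUM_w a) b := by
  unfold JUM_w
  rw [Fin.sum_univ_three]
  exact (((h 0).smul_left _).add_left ((h 1).smul_left _)).add_left ((h 2).smul_left _)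

theorem JUM_w_right {b : Lm C6 K} (h : ∀ i, JUM_Q b (E C6 (JUM_l i))) (a : Fin 3 → K) : JUM_Q b (JUM_w a) := by
  unfold JUM_w
  rw [Fin.sum_univ_three]
  exact (((h 0).smul_right _).add_right ((h 1).smul_right _)).add_right ((h 2).smul_right _)

theorem JUM_l2 (i : Fin 3) : ip C6 (JUM_l i) (JUM_l i) = 2 := by rw [JUM_fin1, if_pos rfl]

theorem JUM_zero (t : K) (v : Lm C6 K) : xe C6 0 t v = v := by
  unfold Pool.Agent.EXC.xe
  rw [br_zero_left, smul_zero, smul_zero, add_zero, add_zero]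

/-- the product of the two root elements does not change -/
theorem JUM_prod (h2 : (2 : K) = 0) (a : Fin 3 → K) (t : K) (v : Lm C6 K) :
    xe C6 (E C6 eta + JUM_w a) t (xe C6 (E C6 (pv eta) + JUM_w a) t v) = xe C6 (E C6 eta) t (xe C6 (E C6 (pv eta)) t v) := by
  obtain ⟨f1, f2, f3⟩ := JUM_fin2
  have q1 : JUM_Q (E C6 eta : Lm C6 K) (JUM_w a) := JUM_w_right (fun i => JUM_Q_root f2 (JUM_l2 i) (Or.inr (f1 i).1)) a
  have q2 : JUM_Q (JUM_w a) (E C6 (pv eta) : Lm C6 K) :=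
    JUM_w_left (fun i => JUM_Q_root (JUM_l2 i) f3 (Or.inr (f1 i).2.2.1)) a
  have q3 : JUM_Q (JUM_w a) (JUM_w a : Lm C6 K) := by
    refine JUM_w_left (fun i => JUM_w_right (fun j => JUM_Q_root (JUM_l2 i) (JUM_l2 j) ?_) a) a
    by_cases h : i = j
    · exact Or.inl (by rw [h])
    · exact Or.inr (by rw [JUM_fin1, if_neg h])
  have hw : JUM_w a + JUM_w a = (0 : Lm C6 K) := by
    rw [← two_smul K (JUM_w a), h2, zero_smul]
  rw [q1.xe, add_comm (E C6 (pv eta) : Lm C6 K), q2.xe, ← q3.xe, hw, JUM_zero]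

/-- `u` maps the set of the vectors `E eta + w` into itself -/
def JUM_P (g : Lm C6 K ≃ₗ[K] Lm C6 K) : Prop := ∀ a : Fin 3 → K, ∃ a' : Fin 3 → K, g (E C6 eta + JUM_w a) = E C6 eta + JUM_w a'

theorem JUM_w_add (a a' : Fin 3 → K) : JUM_w a + JUM_w a' = JUM_w (a + a') := by
  unfold JUM_w
  rw [← Finset.sum_add_distrib]
  exact Finset.sum_congr rfl fun i _ => by rw [Pi.add_apply, add_smul]

theorem JUM_w_smul (c : K) (a : Fin 3 → K) : c • JUM_w a = JUM_w (c • a) := by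
  unfold JUM_w
  rw [Finset.smul_sum]
  exact Finset.sum_congr rfl fun i _ => by rw [Pi.smul_apply, smul_eq_mul, mul_smul]

theorem JUM_w_single (i : Fin 3) : JUM_w (Pi.single i 1) = (E C6 (JUM_l i) : Lm C6 K) := by
  unfold JUM_w
  rw [Finset.sum_eq_single i]
  · rw [Pi.single_eq_same, one_smul]
  · intro j _ hj
    rw [Pi.single_eq_of_ne hj, zero_smul]
  · intro h
    exact absurd (Finset.mem_univ _) h

theorem JUM_gen (hLST : LST_stmt) {δ : Fin 6 → ℤ} (hδ : ip C6 δ δ = 2) (hp : Pos δ) (t : K) (g : Lm C6 K ≃ₗ[K] Lm C6 K)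
    (hg : IsX C6 (E C6 δ) t g) : JUM_P g := by
  obtain ⟨a1, a2, -⟩ := f_ACT 6 C6 K δ t hδ
  obtain ⟨f1, f2⟩ := JUM_fin3 δ ((hLST δ).1 hδ) hp
  obtain ⟨-, e2, -⟩ := JUM_fin2
  have hη : ∃ b : Fin 3 → K, g (E C6 eta) = E C6 eta + JUM_w b := by
    rcases lt_or_ge (ip C6 δ eta) 0 with h | h
    · have h1 : ip C6 δ eta = -1 := by omega
      obtain ⟨j, hj⟩ := f1.2 h1
      refine ⟨(t * (sg C6 δ eta : K)) • Pi.single j 1, ?_⟩
      rw [hg, a2 eta e2 h1, hj, ← JUM_w_smul, JUM_w_single]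
    · refine ⟨0, ?_⟩
      rw [hg, a1 eta e2 h]
      unfold JUM_w
      simp
  have hl : ∀ i, ∃ b : Fin 3 → K, g (E C6 (JUM_l i)) = JUM_w b := by
    intro i
    rcases lt_or_ge (ip C6 δ (JUM_l i)) 0 with h | h
    · have h1 : ip C6 δ (JUM_l i) = -1 := by
        have := (f2 i).1
        omega
      obtain ⟨j, hj⟩ := (f2 i).2 h1
      refine ⟨Pi.single i 1 + (t * (sg C6 δ (JUM_l i) : K)) • Pi.single j 1, ?_⟩
      rw [hg, a2 _ (JUM_l2 i) h1, hj, ← JUM_w_add, ← JUM_w_smul, JUM_w_single, JUM_w_single]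
    · refine ⟨Pi.single i 1, ?_⟩
      rw [hg, a1 _ (JUM_l2 i) h, JUM_w_single]
  obtain ⟨b, hb⟩ := hη
  choose B hB using hl
  intro a
  refine ⟨b + ∑ i, a i • B i, ?_⟩
  have h1 : g (JUM_w a) = JUM_w (∑ i, a i • B i) := by
    have e1 : g (JUM_w a) = ∑ i, a i • g (E C6 (JUM_l i)) := by
      unfold JUM_w
      rw [map_sum]
      exact Finset.sum_congr rfl fun i _ => by rw [map_smul]
    rw [e1, Fin.sum_univ_three, Fin.sum_univ_three, hB, hB, hB, JUM_w_smul, JUM_w_smul, JUM_w_smul, JUM_w_add, JUM_w_add]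
  rw [map_add, hb, h1, add_assoc, JUM_w_add]

end

theorem JUM (hLST : LST_stmt) (hRTF : RTF_stmt) (hSIG : SIG_stmt) (hSGR : SGR_stmt) : JUM_stmt := by
  intro K _ h2 u hu huU t g hg
  obtain ⟨-, -, -, -, -, -, hsn, hsnp, -, -, -, -, -, -, -⟩ := hRTF
  obtain ⟨s1, s2, -, -, -, s6, -, -⟩ := hSIG K (RingEquiv.refl K) (fun _ => rfl)
  obtain ⟨-, -, -, -, -, r6⟩ := hSGR K (RingEquiv.refl K) (fun _ => rfl)
  obtain ⟨f1, f2, f3⟩ := JUM_fin2
  have hβ := (f_NBR 6 C6 1 th _ f_DE6.2).1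
  obtain ⟨hAu, hExE, hExP, -⟩ := f_EXF 6 C6 K hβ
  have hsn1 : ∀ v, (sn v : K) = 1 := by
    intro v
    rcases hsn v with h | h
    · rw [h, Int.cast_one]
    · rw [h, Int.cast_neg, Int.cast_one]
      linear_combination -h2
  -- the image of `E eta`
  have hP : JUM_P u ∧ JUM_P u⁻¹ := by
    refine Subgroup.closure_induction (p := fun x _ => JUM_P x ∧ JUM_P x⁻¹) ?_ ?_ ?_ ?_ huU
    · rintro x ⟨δ, hδ, hp, t', hx⟩
      refine ⟨JUM_gen hLST hδ hp t' x hx, ?_⟩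
      obtain ⟨y, -, hy⟩ := (hExP (E C6 δ) (hExE δ hδ)).2.2.2.2.1 (-t')
      have h3 : x⁻¹ = y := by
        refine inv_eq_of_mul_eq_one_right ?_
        apply LinearEquiv.ext
        intro v
        change x (y v) = v
        rw [hx, hy, (f_XAU 6 C6 K (E C6 δ) (hExP (E C6 δ) (hExE δ hδ)).1).1, add_neg_cancel]
        unfold Pool.Agent.EXC.xe
        simp
      rw [h3]
      exact JUM_gen hLST hδ hp (-t') y hy
    · rw [inv_one]
      exact ⟨fun a => ⟨a, rfl⟩, fun a => ⟨a, rfl⟩⟩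
    · rintro x y - - ⟨hx, hx'⟩ ⟨hy, hy'⟩
      refine ⟨fun a => ?_, fun a => ?_⟩
      · obtain ⟨b, hb⟩ := hy a
        obtain ⟨c, hc⟩ := hx b
        refine ⟨c, ?_⟩
        change x (y _) = _
        rw [hb, hc]
      · obtain ⟨b, hb⟩ := hx' a
        obtain ⟨c, hc⟩ := hy' b
        refine ⟨c, ?_⟩
        rw [mul_inv_rev]
        change y⁻¹ (x⁻¹ _) = _
        rw [hb, hc]
    · rintro x - ⟨hx, hx'⟩
      rw [inv_inv]
      exact ⟨hx', hx⟩
  obtain ⟨a, ha⟩ := hP.1 0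
  have hw0 : JUM_w (0 : Fin 3 → K) = 0 := by
    unfold JUM_w
    simp
  rw [hw0, add_zero] at ha
  have hsw : si (RingEquiv.refl K) (JUM_w a) = JUM_w a := by
    have h3 : ∀ i, si (RingEquiv.refl K) (a i • E C6 (JUM_l i) : Lm C6 K) = a i • E C6 (JUM_l i) := by
      intro i
      rw [s2, s6 _ (JUM_l2 i), (f1 i).2.2.2.2, hsn1, one_smul]
      rfl
    unfold JUM_w
    rw [Fin.sum_univ_three, s1, s1, h3, h3, h3]
  have hse : si (RingEquiv.refl K) (E C6 eta : Lm C6 K) = E C6 (pv eta) := by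
    rw [s6 _ f2, hsn1, one_smul]
  have ha' : u (E C6 (pv eta)) = E C6 (pv eta) + JUM_w a := by
    rw [← hse, ← (r6 u hu).2.2, ha, s1, hsw, hse]
  obtain ⟨huG, huA, -⟩ := r6 u hu
  have hx1 := ((f_XAU 6 C6 K (E C6 eta) (hExP (E C6 eta) (hExE eta f2)).1).2.2.1 u huA).2
  have hx2 := ((f_XAU 6 C6 K (E C6 (pv eta)) (hExP (E C6 (pv eta)) (hExE _ f3)).1).2.2.1 u huA).2
  apply LinearEquiv.ext
  intro v
  change u (g v) = g (u v)
  have hone : (sn eta : K) * (RingEquiv.refl K) t = t := by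
    rw [hsn1, one_mul]
    rfl
  rw [hg v, hg (u v), hone, hx1, hx2, ha, ha', JUM_prod h2]

end Pool.Agent.EXT
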