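import Pool.Agent.helper17.EXT.SpecJ
import Pool.Agent.helper80.EXT.ARF

/-!
# EXT (MP_561ff4_al), block J, row JAU: automorphisms of `F₄(2^f)` preserve or swap the classes of root subgroups
-/

set_option autoImplicit false

open Finset

namespace Pool.Agent.EXT

open Pool.Agent.EXC

/-! ## Groups -/

theorem JAU_alt {G : Type} [Group G] [Finite G] (X Y : Subgroup G) (φ : MulAut G) (hc : Nat.card X = Nat.card Y)
    (h : ∀ f ∈ X, φ f ∈ X ∨ φ f ∈ Y) : (∀ f, f ∈ X ↔ φ f ∈ X) ∨ ∀ f, f ∈ X ↔ φ f ∈ Y := by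
  have key : ∀ Z : Subgroup G, Nat.card X = Nat.card Z → (∀ f ∈ X, φ f ∈ Z) → ∀ f, f ∈ X ↔ φ f ∈ Z := by
    intro Z hZ hXZ
    have h1 : X.map φ.toMonoidHom ≤ Z := by
      rintro _ ⟨f, hf, rfl⟩
      exact hXZ f hf
    have h2 : Nat.card (X.map φ.toMonoidHom) = Nat.card X := Subgroup.card_map_of_injective φ.injective
    have h3 : X.map φ.toMonoidHom = Z := Subgroup.eq_of_le_of_card_ge h1 (by rw [h2, hZ])
    intro f
    rw [← h3]
    constructor
    · intro hf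
      exact ⟨f, hf, rfl⟩
    · rintro ⟨f', hf', e⟩
      have e' : f' = f := φ.injective e
      rwa [← e']
  by_contra hcon
  push Not at hcon
  obtain ⟨h1, h2⟩ := hcon
  have h3 : ∃ a ∈ X, φ a ∉ X := by
    by_contra h4
    push Not at h4
    obtain ⟨f, hf⟩ := h1
    have := key X rfl h4 f
    rcases hf with ⟨ha, hb⟩ | ⟨ha, hb⟩
    · exact hb (this.1 ha)
    · exact ha (this.2 hb)
  have h4 : ∃ b ∈ X, φ b ∉ Y := by
    by_contra h4
    push Not at h4
    obtain ⟨f, hf⟩ := h2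
    have := key Y hc h4 f
    rcases hf with ⟨ha, hb⟩ | ⟨ha, hb⟩
    · exact hb (this.1 ha)
    · exact ha (this.2 hb)
  obtain ⟨a, ha, ha'⟩ := h3
  obtain ⟨b, hb, hb'⟩ := h4
  have ha2 : φ a ∈ Y := (h a ha).resolve_left ha'
  have hb2 : φ b ∈ X := (h b hb).resolve_right hb'
  rcases h (a * b) (X.mul_mem ha hb) with h5 | h5
  · apply ha'
    have h6 := X.mul_mem h5 (X.inv_mem hb2)
    rwa [map_mul, mul_inv_cancel_right] at h6
  · apply hb'
    have h6 := Y.mul_mem (Y.inv_mem ha2) h5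
    rwa [map_mul, inv_mul_cancel_left] at h6

theorem JAU_sub {G K : Type} [Group G] [Field K] (D : K → G → Prop) (hex : ∀ t, ∃ f, D t f)
    (hun : ∀ t f f', D t f → D t f' → f = f') (hmul : ∀ s t f f', D s f → D t f' → D (s + t) (f * f'))
    (hinj : ∀ s t f, D s f → D t f → s = t) :
    ∃ X : Subgroup G, (∀ f, f ∈ X ↔ ∃ t, D t f) ∧ Nat.card X = Nat.card K := by
  choose F hF using hex
  obtain ⟨ρ, hρ⟩ : ∃ ρ : Multiplicative K →* G, ∀ t, ρ t = F (Multiplicative.toAdd t) := by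
    refine ⟨MonoidHom.mk' (fun t => F (Multiplicative.toAdd t)) fun s t => ?_, fun _ => rfl⟩
    exact hun _ _ _ (hF _) (hmul _ _ _ _ (hF _) (hF _))
  have hρi : Function.Injective ρ := by
    intro s t h
    rw [hρ, hρ] at h
    have h1 := hF (Multiplicative.toAdd s)
    rw [h] at h1
    exact hinj _ _ _ h1 (hF _)
  refine ⟨ρ.range, fun f => ?_, ?_⟩
  · constructor
    · rintro ⟨t, rfl⟩
      exact ⟨_, by rw [hρ]; exact hF _⟩
    · rintro ⟨t, ht⟩
      exact ⟨Multiplicative.ofAdd t, by rw [hρ]; exact hun _ _ _ (hF _) ht⟩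
  · exact (Nat.card_congr (MonoidHom.ofInjective hρi).toEquiv).symm

theorem JAU_card {G : Type} [Group G] [Finite G] (φ : MulAut G) (f f1 z h : G) (hz : φ f = z) (hf1 : h * f * h⁻¹ = f1) :
    Nat.card {g : G // g * f1 = f1 * g} ≤ Nat.card {g : G // g * z = z * g} := by
  refine Nat.card_le_card_of_injective (fun g => ⟨φ (h⁻¹ * g.1 * h), ?_⟩) ?_
  · rw [← hz, ← map_mul, ← map_mul]
    congr 1
    have h1 : g.1 * (h * f * h⁻¹) = (h * f * h⁻¹) * g.1 := by
      rw [hf1]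
      exact g.2
    calc h⁻¹ * g.1 * h * f = h⁻¹ * (g.1 * (h * f * h⁻¹)) * h := by group
      _ = h⁻¹ * (h * f * h⁻¹ * g.1) * h := by rw [h1]
      _ = f * (h⁻¹ * g.1 * h) := by group
  · rintro ⟨a, ha⟩ ⟨b, hb⟩ e
    have e1 := φ.injective (congrArg Subtype.val e)
    have e2 : a = b := mul_left_cancel (mul_right_cancel e1)
    exact Subtype.ext e2

theorem JAU (hWST : WST_stmt) (hWPS : WPS_stmt) (hSGR : SGR_stmt) (hESF : ESF_stmt) (hGFX : GFX_stmt) (hSYT : SYT_stmt) (hTOR : TOR_stmt) (hRTF : RTF_stmt) (hJCX : JCX_stmt) (hJCZ : JCZ_stmt) (hJSH : JSH_stmt) : JAU_stmt := by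
  intro K _ _ h2K x
  have hτ : ∀ y : K, (RingEquiv.refl K) ((RingEquiv.refl K) y) = y := fun _ => rfl
  have hp : CharP K 2 := CharTwo.of_one_ne_zero_of_two_eq_zero one_ne_zero h2K
  have hpr : (2 : ℕ).Prime := Nat.prime_two
  have : Fact (2 : ℕ).Prime := ⟨hpr⟩
  have hfin : Finite (GF (RingEquiv.refl K)) := by
    have h1 : Finite (LT (RingEquiv.refl K)) := Subtype.finite
    exact Subtype.finite
  have hth : LR th := hRTF.2.2.2.2.2.2.2.2.2.2.2.2.2.1
  have hthpos : Pos th := (f_DMN 6 CartanMatrix.E₆ 1 th ![0, 2, 3, 4, 5] f_DE6.2).1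
  have hExth : ExS (RingEquiv.refl K) (E C6 th : Lm C6 K) := (hESF K (RingEquiv.refl K) hτ).1 th hth
  have hthLT : (E C6 th : Lm C6 K) ∈ LT (RingEquiv.refl K) := ((hESF K (RingEquiv.refl K) hτ).2 _ hExth).2.2.1
  have hSRe : SR eta := by
    refine ⟨?_, ?_⟩ <;> decide +kernel
  obtain ⟨hind, hXa⟩ := hGFX K (RingEquiv.refl K) hτ
  obtain ⟨jA, jB, jC, jD, jE, jF, jG⟩ := hJSH K h2K 1 (one_mem _) eta hSRe
  -- the 2-group `U`
  let U : Subgroup (GF (RingEquiv.refl K)) :=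
    { carrier := {f | ∃ u ∈ GS (RingEquiv.refl K), u ∈ UG C6 K ∧ ∀ v : LT (RingEquiv.refl K), ((f : Equiv.Perm (LT (RingEquiv.refl K))) v : Lm C6 K) = u v}
      one_mem' := ⟨1, one_mem _, one_mem _, fun _ => rfl⟩
      mul_mem' := by
        rintro f f' ⟨u, h1, h2, h3⟩ ⟨u', h1', h2', h3'⟩
        refine ⟨u * u', mul_mem h1 h1', mul_mem h2 h2', fun v => ?_⟩
        have e : (((f * f' : GF (RingEquiv.refl K)) : Equiv.Perm (LT (RingEquiv.refl K))) v : Lm C6 K) =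
            ((f : Equiv.Perm (LT (RingEquiv.refl K))) ((f' : Equiv.Perm (LT (RingEquiv.refl K))) v) : Lm C6 K) := rfl
        rw [e, h3, h3']
        rfl
      inv_mem' := by
        rintro f ⟨u, h1, h2, h3⟩
        refine ⟨u⁻¹, inv_mem h1, inv_mem h2, fun v => ?_⟩
        have e := h3 ((f : Equiv.Perm (LT (RingEquiv.refl K)))⁻¹ v)
        have e2 : (f : Equiv.Perm (LT (RingEquiv.refl K))) ((f : Equiv.Perm (LT (RingEquiv.refl K)))⁻¹ v) = v :=
          (f : Equiv.Perm (LT (RingEquiv.refl K))).apply_symm_apply v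
        rw [e2] at e
        have e3 : (((f⁻¹ : GF (RingEquiv.refl K)) : Equiv.Perm (LT (RingEquiv.refl K))) v : Lm C6 K) =
            ((f : Equiv.Perm (LT (RingEquiv.refl K)))⁻¹ v : Lm C6 K) := rfl
        rw [e3, e]
        exact (LinearEquiv.symm_apply_apply u _).symm }
  have hUp : IsPGroup 2 U := by
    rintro ⟨f, u, h1, h2, h3⟩
    obtain ⟨k, hk⟩ := f_UPG 6 CartanMatrix.E₆ K 2 hpr hp u h2
    refine ⟨k, ?_⟩
    apply Subtype.ext
    apply Subtype.ext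
    apply Equiv.ext
    intro v
    apply Subtype.ext
    have h4 : ∀ (j : ℕ) (v : LT (RingEquiv.refl K)), (((f : Equiv.Perm (LT (RingEquiv.refl K))) ^ j) v : Lm C6 K) = (u ^ j) (v : Lm C6 K) := by
      intro j
      induction j with
      | zero => intro v; rfl
      | succ j ih =>
        intro v
        rw [pow_succ, pow_succ, Equiv.Perm.mul_apply, ih, h3]
        rfl
    have h5 := h4 (2 ^ k) v
    rw [hk] at h5
    exact h5
  obtain ⟨P, hP⟩ := hUp.exists_le_sylow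
  have hUP : ∀ f : GF (RingEquiv.refl K), (∃ u ∈ GS (RingEquiv.refl K), u ∈ UG C6 K ∧
      ∀ v : LT (RingEquiv.refl K), ((f : Equiv.Perm (LT (RingEquiv.refl K))) v : Lm C6 K) = u v) → f ∈ (P : Subgroup (GF (RingEquiv.refl K))) :=
    fun f hf => hP hf
  have hfix := hSYT K (RingEquiv.refl K) hτ 2 hpr hp P P.2 hUP
  have hZ1 : ∀ f : GF (RingEquiv.refl K), InX (RingEquiv.refl K) (E C6 th) (f : Equiv.Perm (LT (RingEquiv.refl K))) →
      f ∈ (P : Subgroup (GF (RingEquiv.refl K))) ∧ ∀ k ∈ (P : Subgroup (GF (RingEquiv.refl K))), k * f = f * k := by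
    rintro f ⟨t, ht, hft⟩
    refine ⟨?_, fun k hk => ?_⟩
    · obtain ⟨g, hg, hgt⟩ := (hSGR K (RingEquiv.refl K) hτ).2.1 th t hth ht
      exact hUP f ⟨g, hg, Subgroup.subset_closure ⟨th, hth.1, hthpos, t, hgt⟩, fun v =>
        (hft v).trans (hgt v).symm⟩
    · obtain ⟨g, hg, hkg⟩ := k.2
      have h1 := (hXa _ hExth).2.2.2.2 k k.2 g hg hkg t f hft
      have h2 : g (E C6 th : Lm C6 K) = E C6 th := by
        have h3 := hfix k hk ⟨E C6 th, hthLT⟩ rfl
        have h4 := hkg ⟨E C6 th, hthLT⟩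
        rw [h3] at h4
        exact h4.symm
      rw [h2] at h1
      have h3 : (k : Equiv.Perm (LT (RingEquiv.refl K))) * f * (k : Equiv.Perm (LT (RingEquiv.refl K)))⁻¹ = f := by
        apply Equiv.ext
        intro v
        apply Subtype.ext
        exact (h1 v).trans (hft v).symm
      apply Subtype.ext
      exact mul_inv_eq_iff_eq_mul.1 h3
  have hZ2 : ∀ f : GF (RingEquiv.refl K), (f ∈ (P : Subgroup (GF (RingEquiv.refl K))) ∧
      ∀ k ∈ (P : Subgroup (GF (RingEquiv.refl K))), k * f = f * k) → ∃ (t : K) (f1 f2 : GF (RingEquiv.refl K)),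
      IsF (RingEquiv.refl K) (E C6 th) t (f1 : Equiv.Perm (LT (RingEquiv.refl K))) ∧
      InH 1 eta (f2 : Equiv.Perm (LT (RingEquiv.refl K))) ∧ f = f1 * f2 := by
    rintro f ⟨-, hk⟩
    obtain ⟨g, hg, hfg⟩ := f.2
    obtain ⟨t, y, g', hg', hgt⟩ := hJCX K h2K g hg (fun u hu hu' v hv => by
      obtain ⟨fu, hfu, hfu'⟩ := hind u hu
      have h1 := hk ⟨fu, hfu⟩ (hUP ⟨fu, hfu⟩ ⟨u, hu, hu', hfu'⟩)
      have h2 : ∀ w : LT (RingEquiv.refl K), fu ((f : Equiv.Perm (LT (RingEquiv.refl K))) w) = (f : Equiv.Perm (LT (RingEquiv.refl K))) (fu w) := by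
        intro w
        exact congrArg (fun z : GF (RingEquiv.refl K) => (z : Equiv.Perm (LT (RingEquiv.refl K))) w) h1
      have h3 := congrArg (fun w : LT (RingEquiv.refl K) => (w : Lm C6 K)) (h2 ⟨v, hv⟩)
      have h4 : ((fu ((f : Equiv.Perm (LT (RingEquiv.refl K))) ⟨v, hv⟩) : LT (RingEquiv.refl K)) : Lm C6 K) = u (g v) := by
        rw [hfu', hfg]
      have h5 : (((f : Equiv.Perm (LT (RingEquiv.refl K))) (fu ⟨v, hv⟩) : LT (RingEquiv.refl K)) : Lm C6 K) = g (u v) := by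
        rw [hfg, hfu']
      rw [← h4, ← h5]
      exact h3.symm)
    obtain ⟨f1, hf1, hf1t⟩ := (hXa _ hExth).1 t rfl
    have hg'S : g' ∈ GS (RingEquiv.refl K) := ((hSGR K (RingEquiv.refl K) hτ).2.2.2.1 eta y g' hSRe hg').2
    obtain ⟨f2, hf2, hf2g⟩ := hind g' hg'S
    refine ⟨t, ⟨f1, hf1⟩, ⟨f2, hf2⟩, hf1t, ⟨y, g', hg', fun v => hf2g v⟩, ?_⟩
    apply Subtype.ext
    apply Equiv.ext
    intro v
    apply Subtype.ext
    change ((f : Equiv.Perm (LT (RingEquiv.refl K))) v : Lm C6 K) = (f1 (f2 v) : Lm C6 K)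
    rw [hf1t, hf2g, hfg]
    exact hgt v v.2
  obtain ⟨g0, hg0⟩ := ARA_syl P x
  have hcen := ARA_cen (P : Subgroup (GF (RingEquiv.refl K)))
    (fun f => f ∈ (P : Subgroup (GF (RingEquiv.refl K))) ∧ ∀ k ∈ (P : Subgroup (GF (RingEquiv.refl K))), k * f = f * k)
    (fun _ => Iff.rfl) (MulAut.conj g0⁻¹ * x) hg0
  -- elements with the parameter zero
  have hF0 : ∀ f : GF (RingEquiv.refl K), IsF (RingEquiv.refl K) (E C6 th) 0 (f : Equiv.Perm (LT (RingEquiv.refl K))) → f = 1 := by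
    intro f hf
    apply Subtype.ext
    apply Equiv.ext
    intro v
    apply Subtype.ext
    have h1 := hf v
    unfold Pool.Agent.EXC.xe at h1
    rw [zero_smul, zero_pow two_ne_zero, zero_mul, zero_smul, add_zero, add_zero] at h1
    exact h1
  have hFu : ∀ (t : K) (f f' : GF (RingEquiv.refl K)), IsF (RingEquiv.refl K) (E C6 th) t (f : Equiv.Perm (LT (RingEquiv.refl K))) →
      IsF (RingEquiv.refl K) (E C6 th) t (f' : Equiv.Perm (LT (RingEquiv.refl K))) → f = f' := by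
    intro t f f' h h'
    apply Subtype.ext
    apply Equiv.ext
    intro v
    apply Subtype.ext
    rw [h v, h' v]
  -- the two subgroups
  obtain ⟨X, hX, hXc⟩ := JAU_sub (G := GF (RingEquiv.refl K)) (K := K)
    (fun t f => IsF (RingEquiv.refl K) (E C6 th) t (f : Equiv.Perm (LT (RingEquiv.refl K))))
    (fun t => by
      obtain ⟨f1, hf1, hf1t⟩ := (hXa _ hExth).1 t rfl
      exact ⟨⟨f1, hf1⟩, hf1t⟩) hFu
    (fun s t f f' h h' => (hXa _ hExth).2.2.1 s t f f' h h')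
    (fun s t f h h' => (hXa _ hExth).2.2.2.1 s t f h h')
  obtain ⟨Y, hY, hYc⟩ := JAU_sub (G := GF (RingEquiv.refl K)) (K := K)
    (fun t f => ∃ g, IsS (RingEquiv.refl K) eta t g ∧ ∀ v : LT (RingEquiv.refl K), ((f : Equiv.Perm (LT (RingEquiv.refl K))) v : Lm C6 K) = g (v : Lm C6 K))
    (fun t => by
      obtain ⟨f, hf, g, hg, hgt, hfg⟩ := jA t
      exact ⟨⟨f, hf⟩, g, hgt, hfg⟩)
    (fun t f f' ⟨g, hg, h⟩ ⟨g', hg', h'⟩ => by
      apply Subtype.ext
      apply Equiv.ext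
      intro v
      apply Subtype.ext
      rw [h v, h' v, hg v, hg' v])
    (fun s t f f' ⟨g, hg, h⟩ ⟨g', hg', h'⟩ => by
      refine ⟨g * g', (hSGR K (RingEquiv.refl K) hτ).2.2.1 eta s t g g' hSRe hg hg', fun v => ?_⟩
      change ((f : Equiv.Perm (LT (RingEquiv.refl K))) ((f' : Equiv.Perm (LT (RingEquiv.refl K))) v) : Lm C6 K) = g (g' v)
      rw [h, h'])
    (fun s t f ⟨g, hg, h⟩ ⟨g', hg', h'⟩ => jG s t g g' hg hg' fun v hv => by
      rw [← h ⟨v, hv⟩, ← h' ⟨v, hv⟩])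
  have hXm : ∀ f : GF (RingEquiv.refl K), f ∈ X ↔ InX (RingEquiv.refl K) (E C6 th) (f : Equiv.Perm (LT (RingEquiv.refl K))) := by
    intro f
    rw [hX]
    exact ⟨fun ⟨t, h⟩ => ⟨t, rfl, h⟩, fun ⟨t, _, h⟩ => ⟨t, h⟩⟩
  have hYm : ∀ f : GF (RingEquiv.refl K), f ∈ Y ↔ InH 1 eta (f : Equiv.Perm (LT (RingEquiv.refl K))) := by
    intro f
    rw [hY]
    exact ⟨fun ⟨t, g, h, h'⟩ => ⟨t, g, h, h'⟩, fun ⟨t, g, h, h'⟩ => ⟨t, g, h, h'⟩⟩
  have hdich := JAU_alt X Y (MulAut.conj g0⁻¹ * x) (hXc.trans hYc.symm) (by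
    intro f hf
    obtain ⟨s, -, hfs⟩ := (hXm f).1 hf
    obtain ⟨t, f1, f2, hf1, hf2, he⟩ := hZ2 _ ((hcen f).1 (hZ1 f ((hXm f).1 hf)))
    by_cases ht : t = 0
    · right
      rw [ht] at hf1
      rw [he, hF0 f1 hf1, one_mul]
      exact (hYm f2).2 hf2
    · by_cases hf2' : f2 = 1
      · left
        rw [he, hf2', mul_one]
        exact (hXm f1).2 ⟨t, rfl, hf1⟩
      · exfalso
        have h1 := hJCZ K h2K f1 f2 t ht hf1 hf2 hf2'
        refine absurd h1 (not_lt.2 ?_)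
        by_cases hs : s = 0
        · rw [hs] at hfs
          have h3 : f1 * f2 = 1 := by rw [← he, hF0 f hfs, map_one]
          refine Nat.card_le_card_of_injective (fun g => ⟨g.1, by rw [h3, mul_one, one_mul]⟩) ?_
          rintro ⟨a, ha⟩ ⟨b, hb⟩ e
          have e1 := Subtype.ext_iff.1 e
          exact Subtype.ext e1
        · obtain ⟨r, hr⟩ : ∃ r : K, r ^ 2 = t / s := by
            have h3 : ringChar K = 2 := ringChar.eq K 2
            obtain ⟨r, hr⟩ := FiniteField.isSquare_of_char_two h3 (t / s)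
            exact ⟨r, by rw [hr, sq]⟩
          have hr0 : r ≠ 0 := by
            rintro rfl
            rw [zero_pow two_ne_zero] at hr
            exact (div_ne_zero ht hs) hr.symm
          obtain ⟨h, hh, hhE⟩ := hTOR K (RingEquiv.refl K) hτ th hth r rfl hr0
          obtain ⟨f0, hf0, hf0h⟩ := hind h hh
          have h3 := (hXa _ hExth).2.2.2.2 f0 hf0 h hh hf0h s f hfs
          have h4 : h (E C6 th : Lm C6 K) = (r ^ 2) • E C6 th := by
            rw [hhE th hth.1, hth.1]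
            congr 1
            exact zpow_ofNat r 2
          rw [h4, ARF_isf, hr, div_mul_cancel₀ _ hs] at h3
          have h5 : (⟨f0, hf0⟩ : GF (RingEquiv.refl K)) * f * ⟨f0, hf0⟩⁻¹ = f1 := hFu t _ f1 h3 hf1
          exact JAU_card (MulAut.conj g0⁻¹ * x) f f1 (f1 * f2) ⟨f0, hf0⟩ he h5)
  -- transport
  have htr : ∀ a : Lm C6 K, ExS (RingEquiv.refl K) a → ∃ (m' : Lm C6 K ≃ₗ[K] Lm C6 K) (M M' : GF (RingEquiv.refl K)), m' ∈ GS (RingEquiv.refl K) ∧
      (∀ v : LT (RingEquiv.refl K), ((M' : Equiv.Perm (LT (RingEquiv.refl K))) v : Lm C6 K) = m' v) ∧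
      (∀ f : GF (RingEquiv.refl K), InX (RingEquiv.refl K) a (f : Equiv.Perm (LT (RingEquiv.refl K))) ↔ M⁻¹ * f * M ∈ X) ∧
      ∀ f : GF (RingEquiv.refl K), (MulAut.conj g0⁻¹ * x) (M⁻¹ * f * M) = M'⁻¹ * x f * M' := by
    intro a ha
    obtain ⟨g₁, hg₁, β, hβ, c, hc, hc0, rfl⟩ := ha
    have hW := hWST.1 β β th th hβ hβ hth hth (by rw [hβ.1, hth.1])
    obtain ⟨k, hk, s, -, hs, -, hkβ, -⟩ := hWPS K (RingEquiv.refl K) hτ β β th th hβ.1 hβ.1 hW
    have hss : (s : K) * (s : K) = 1 := by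
      rcases hs with h | h <;> rw [h] <;> simp
    have hs0 : (s : K) ≠ 0 := by
      intro h0
      rw [h0, mul_zero] at hss
      exact zero_ne_one hss
    have hβk : (E C6 β : Lm C6 K) = (s : K) • k⁻¹ (E C6 th : Lm C6 K) := by
      have h1 : k ((s : K) • k⁻¹ (E C6 th : Lm C6 K)) = k (E C6 β : Lm C6 K) := by
        rw [map_smul, hkβ]
        congr 1
        exact k.apply_symm_apply _
      exact (k.injective h1).symm
    obtain ⟨m, hm⟩ : ∃ m : Lm C6 K ≃ₗ[K] Lm C6 K, m = g₁ * k⁻¹ := ⟨_, rfl⟩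
    have hmS : m ∈ GS (RingEquiv.refl K) := by
      rw [hm]
      exact mul_mem hg₁ (inv_mem hk)
    have ham : c • g₁ (E C6 β : Lm C6 K) = (c * (s : K)) • m (E C6 th : Lm C6 K) := by
      rw [hβk, map_smul, smul_smul, hm]
      rfl
    obtain ⟨M, hM, hMm⟩ := hind m hmS
    obtain ⟨M', hM'⟩ : ∃ M' : GF (RingEquiv.refl K), M' = x ⟨M, hM⟩ * g0 := ⟨_, rfl⟩
    obtain ⟨m', hm', hMm'⟩ := M'.2
    refine ⟨m', ⟨M, hM⟩, M', hm', hMm', fun f => ?_, fun f => ?_⟩
    · rw [ham, ARF_smul (RingEquiv.refl K) _ rfl (mul_ne_zero hc0 hs0),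
        ARF_tr (RingEquiv.refl K) hτ hESF hGFX _ hExth M hM m hmS hMm, hXm]
      rfl
    · rw [MulAut.mul_apply, MulAut.conj_apply, map_mul, map_mul, map_inv, hM']
      group
  rcases hdich with hd | hd
  · left
    intro a ha
    obtain ⟨m', M, M', hm', hMm', hA, hB⟩ := htr a ha
    refine ⟨m' (E C6 th), ((hESF K (RingEquiv.refl K) hτ).2 _ hExth).2.2.2.1 m' hm', fun f => ?_⟩
    rw [hA, hd, hB, ARF_tr (RingEquiv.refl K) hτ hESF hGFX _ hExth M' M'.2 m' hm' hMm', hXm]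
    rfl
  · right
    intro a ha
    obtain ⟨m', M, M', hm', hMm', hA, hB⟩ := htr a ha
    refine ⟨m', hm', eta, hSRe, fun f => ?_⟩
    rw [hA, hd, hB, hYm]
    constructor
    · intro h
      have h1 := jE _ h M' M'.2 m' hm' hMm'
      have e1 : (M' : Equiv.Perm (LT (RingEquiv.refl K))) * ((M'⁻¹ * x f * M' : GF (RingEquiv.refl K)) : Equiv.Perm (LT (RingEquiv.refl K))) *
          (M' : Equiv.Perm (LT (RingEquiv.refl K)))⁻¹ = ((x f : GF (RingEquiv.refl K)) : Equiv.Perm (LT (RingEquiv.refl K))) := by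
        rw [Subgroup.coe_mul, Subgroup.coe_mul, Subgroup.coe_inv]
        group
      rwa [e1, mul_one] at h1
    · intro h
      obtain ⟨-, -, -, -, jE', -, -⟩ := hJSH K h2K m' hm' eta hSRe
      have h1 := jE' _ h (M'⁻¹ : GF (RingEquiv.refl K)) (M'⁻¹ : GF (RingEquiv.refl K)).2 m'⁻¹ ((GS (RingEquiv.refl K)).inv_mem hm') (fun v => by
        have e := hMm' ((M' : Equiv.Perm (LT (RingEquiv.refl K)))⁻¹ v)
        have e2 : (M' : Equiv.Perm (LT (RingEquiv.refl K))) ((M' : Equiv.Perm (LT (RingEquiv.refl K)))⁻¹ v) = v :=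
          (M' : Equiv.Perm (LT (RingEquiv.refl K))).apply_symm_apply v
        rw [e2] at e
        have e3 : (((M'⁻¹ : GF (RingEquiv.refl K)) : Equiv.Perm (LT (RingEquiv.refl K))) v : Lm C6 K) =
            ((M' : Equiv.Perm (LT (RingEquiv.refl K)))⁻¹ v : Lm C6 K) := rfl
        rw [e3, e]
        exact (LinearEquiv.symm_apply_apply m' _).symm)
      rw [inv_mul_cancel] at h1
      have e1 : ((M'⁻¹ : GF (RingEquiv.refl K)) : Equiv.Perm (LT (RingEquiv.refl K))) * ((x f : GF (RingEquiv.refl K)) : Equiv.Perm (LT (RingEquiv.refl K))) *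
          ((M'⁻¹ : GF (RingEquiv.refl K)) : Equiv.Perm (LT (RingEquiv.refl K)))⁻¹ =
          ((M'⁻¹ * x f * M' : GF (RingEquiv.refl K)) : Equiv.Perm (LT (RingEquiv.refl K))) := by
        rw [Subgroup.coe_mul, Subgroup.coe_mul, Subgroup.coe_inv, inv_inv]
      rwa [e1] at h1

end Pool.Agent.EXT
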